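import Pool.Agent.Lead.Urn2

namespace Pool.Agent.Results.MP_0b3b8e_pr.Counterexample

open Pool.Agent.Lead.Urn MeasureTheory

theorem result : ∃ (W : ℕ → ℝ) (B0 R0 : Fin 2 → ℕ) (P : Measure (ℕ → Fin 2 → Bool)),
    (∀ n, 0 < W n) ∧ Summable (fun n => 1 / W n) ∧ 1 ≤ ∑ i, B0 i + ∑ i, R0 i ∧
      IsUrnLaw W B0 R0 P ∧ P.real (Monopoly B0 R0) ≤ 1 / 2 := by
  obtain ⟨P, hP⟩ := exists_urn WW WW_pos ![1, 0] ![0, 1]
  exact ⟨WW, ![1, 0], ![0, 1], P, WW_pos, summ, by simp, hP, main P hP⟩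

end Pool.Agent.Results.MP_0b3b8e_pr.Counterexample
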